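import Mathlib
import Pool.Agent.helper35.Hz.Sdefs

/-! # MODULE K of MP_1b0330_gt: the K-lemma -/

namespace Pool.Agent.helper11.Hz

open Pool.Agent.helper35.Hz

/-- abstract K-lemma -/
theorem K_abstract {A : Type*} [Group A] (C : Set (A × MulAut A)) (S : Set A) (K : Subgroup A)
    (hK : ∀ p ∈ C, ∀ x, p.2 x ∈ K ↔ x ∈ K) (hc : ∀ p ∈ C, p.1 ∈ K)
    (hS : ∀ s ∈ S, ∀ p ∈ C, ∃ e e' : ℤ, p.2 s = p.1 ^ e * s * p.1 ^ e')
    (hstar : ∀ K' : Subgroup A, (∀ p ∈ C, ∀ x, p.2 x ∈ K' ↔ x ∈ K') → (∀ p ∈ C, p.1 ∈ K') →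
      ∀ s ∈ S, ∀ p ∈ C, s * p.1 * s⁻¹ ∈ K' ∧ s⁻¹ * p.1 * s ∈ K')
    (hgen : Subgroup.closure ({c | ∃ p ∈ C, c = p.1} ∪ S) = ⊤) :
    Subgroup.normalClosure {c | ∃ p ∈ C, c = p.1} ≤ K := by
  -- the smallest invariant subgroup containing the curves
  set K0 : Subgroup A := sInf {K' : Subgroup A | (∀ p ∈ C, ∀ x, p.2 x ∈ K' ↔ x ∈ K') ∧ ∀ p ∈ C, p.1 ∈ K'}
    with hK0
  have hmem : ∀ x, x ∈ K0 ↔ ∀ K' : Subgroup A, ((∀ p ∈ C, ∀ x, p.2 x ∈ K' ↔ x ∈ K') ∧
      ∀ p ∈ C, p.1 ∈ K') → x ∈ K' := fun x => by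
    rw [hK0, Subgroup.mem_sInf]; rfl
  have h1 : ∀ p ∈ C, ∀ x, p.2 x ∈ K0 ↔ x ∈ K0 := fun p hp x => by
    rw [hmem, hmem]
    exact forall₂_congr fun K' hK' => hK'.1 p hp x
  have h2 : ∀ p ∈ C, p.1 ∈ K0 := fun p hp => (hmem _).2 fun K' hK' => hK'.2 p hp
  have h0 : K0 ≤ K := fun x hx => (hmem x).1 hx K ⟨hK, hc⟩
  have hstar0 := hstar K0 h1 h2
  -- conjugation by `s`
  have hs1 : ∀ s ∈ S, ∀ x ∈ K0, s * x * s⁻¹ ∈ K0 := by
    intro s hs x hx
    have := (hmem x).1 hx (K0.comap (MulAut.conj s).toMonoidHom) ⟨fun p hp y => ?_, fun p hp => ?_⟩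
    · simpa using this
    · obtain ⟨e, e', he⟩ := hS s hs p hp
      have hcc : s * p.1 ^ e' * s⁻¹ ∈ K0 := by
        have : s * p.1 ^ e' * s⁻¹ = (s * p.1 * s⁻¹) ^ e' := by rw [conj_zpow]
        rw [this]
        exact K0.zpow_mem (hstar0 s hs p hp).1 _
      have hce : p.1 ^ e ∈ K0 := K0.zpow_mem (h2 p hp) _
      simp only [Subgroup.mem_comap, MulEquiv.coe_toMonoidHom, MulAut.conj_apply]
      rw [← h1 p hp (s * y * s⁻¹), map_mul, map_mul, map_inv, he]
      have : p.1 ^ e * s * p.1 ^ e' * p.2 y * (p.1 ^ e * s * p.1 ^ e')⁻¹ =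
          p.1 ^ e * (s * p.1 ^ e' * s⁻¹) * (s * p.2 y * s⁻¹) * (p.1 ^ e * (s * p.1 ^ e' * s⁻¹))⁻¹ := by
        group
      rw [this]
      constructor
      · intro h
        exact K0.mul_mem (K0.mul_mem (K0.mul_mem hce hcc) h) (K0.inv_mem (K0.mul_mem hce hcc))
      · intro h
        have h3 := K0.mul_mem (K0.mul_mem (K0.inv_mem (K0.mul_mem hce hcc)) h) (K0.mul_mem hce hcc)
        have e4 : (p.1 ^ e * (s * p.1 ^ e' * s⁻¹))⁻¹ *
            (p.1 ^ e * (s * p.1 ^ e' * s⁻¹) * (s * p.2 y * s⁻¹) * (p.1 ^ e * (s * p.1 ^ e' * s⁻¹))⁻¹) *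
            (p.1 ^ e * (s * p.1 ^ e' * s⁻¹)) = s * p.2 y * s⁻¹ := by group
        rwa [e4] at h3
    · simpa using (hstar0 s hs p hp).1
  have hs2 : ∀ s ∈ S, ∀ x ∈ K0, s⁻¹ * x * s ∈ K0 := by
    intro s hs x hx
    have := (hmem x).1 hx (K0.comap (MulAut.conj s⁻¹).toMonoidHom) ⟨fun p hp y => ?_, fun p hp => ?_⟩
    · simpa using this
    · obtain ⟨e, e', he⟩ := hS s hs p hp
      have hcc : s⁻¹ * p.1 ^ e * s ∈ K0 := by
        have : s⁻¹ * p.1 ^ e * s = (s⁻¹ * p.1 * s) ^ e := by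
          have := conj_zpow (i := e) (a := s⁻¹) (b := p.1)
          rw [inv_inv] at this
          exact this.symm
        rw [this]
        exact K0.zpow_mem (hstar0 s hs p hp).2 _
      have hce : p.1 ^ e' ∈ K0 := K0.zpow_mem (h2 p hp) _
      simp only [Subgroup.mem_comap, MulEquiv.coe_toMonoidHom, MulAut.conj_apply, inv_inv]
      rw [← h1 p hp (s⁻¹ * y * s), map_mul, map_mul, map_inv, he]
      have : (p.1 ^ e * s * p.1 ^ e')⁻¹ * p.2 y * (p.1 ^ e * s * p.1 ^ e') =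
          ((s⁻¹ * p.1 ^ e * s) * p.1 ^ e')⁻¹ * (s⁻¹ * p.2 y * s) * ((s⁻¹ * p.1 ^ e * s) * p.1 ^ e') := by
        group
      rw [this]
      constructor
      · intro h
        exact K0.mul_mem (K0.mul_mem (K0.inv_mem (K0.mul_mem hcc hce)) h) (K0.mul_mem hcc hce)
      · intro h
        have h3 := K0.mul_mem (K0.mul_mem (K0.mul_mem hcc hce) h) (K0.inv_mem (K0.mul_mem hcc hce))
        have e4 : ((s⁻¹ * p.1 ^ e * s) * p.1 ^ e') *
            (((s⁻¹ * p.1 ^ e * s) * p.1 ^ e')⁻¹ * (s⁻¹ * p.2 y * s) * ((s⁻¹ * p.1 ^ e * s) * p.1 ^ e')) *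
            ((s⁻¹ * p.1 ^ e * s) * p.1 ^ e')⁻¹ = s⁻¹ * p.2 y * s := by group
        rwa [e4] at h3
    · simpa using (hstar0 s hs p hp).2
  -- normality
  have hnorm : K0.Normal := by
    rw [← Subgroup.normalizer_eq_top_iff, eq_top_iff, ← hgen, Subgroup.closure_le]
    rintro x (⟨p, hp, rfl⟩ | hx)
    · rw [SetLike.mem_coe, Subgroup.mem_normalizer_iff]
      intro y
      constructor
      · intro h
        exact K0.mul_mem (K0.mul_mem (h2 p hp) h) (K0.inv_mem (h2 p hp))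
      · intro h
        have := K0.mul_mem (K0.mul_mem (K0.inv_mem (h2 p hp)) h) (h2 p hp)
        have e4 : p.1⁻¹ * (p.1 * y * p.1⁻¹) * p.1 = y := by group
        rwa [e4] at this
    · rw [SetLike.mem_coe, Subgroup.mem_normalizer_iff]
      intro y
      constructor
      · exact hs1 x hx y
      · intro h
        have := hs2 x hx _ h
        have e4 : x⁻¹ * (x * y * x⁻¹) * x = y := by group
        rwa [e4] at this
  refine le_trans (Subgroup.normalClosure_le_normal ?_) h0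
  rintro c ⟨p, hp, rfl⟩
  exact h2 p hp

/-! ### killing `a_h` -/

variable {m h : ℕ}

/-- kills `a_h` -/
def rho (m h : ℕ) : FG m →* FG m := mkHom m (fun l => if l = h then 1 else ga m l) (gb m)

/-- the inclusion of the first `h` handles -/
def emb (m h : ℕ) : FG h →* FG m := mkHom h (ga m) (gb m)

/-- kills `a_h`, `b_h ↦ b_h w` -/
def th (m h : ℕ) (w : FG h) : FG m →* FG m :=
  mkHom m (fun l => if l = h then 1 else ga m l) (fun l => if l = h then gb m h * emb m h w else gb m l)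

theorem rho_ga {l : ℕ} (hl : l < m) : rho m h (ga m l) = if l = h then 1 else ga m l := mkHom_ga _ _ hl
theorem rho_gb {l : ℕ} (hl : l < m) : rho m h (gb m l) = gb m l := mkHom_gb _ _ hl
theorem th_ga {l : ℕ} (w : FG h) (hl : l < m) : th m h w (ga m l) = if l = h then 1 else ga m l :=
  mkHom_ga _ _ hl
theorem th_gb {l : ℕ} (w : FG h) (hl : l < m) :
    th m h w (gb m l) = if l = h then gb m h * emb m h w else gb m l := mkHom_gb _ _ hl

theorem emb_ga {i : ℕ} (hi : i < h) : emb m h (ga h i) = ga m i := mkHom_ga _ _ hi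
theorem emb_gb {i : ℕ} (hi : i < h) : emb m h (gb h i) = gb m i := mkHom_gb _ _ hi

theorem th_rho (w : FG h) : (th m h w).comp (rho m h) = th m h w := by
  refine fg_hom_ext (fun i hi => ?_) (fun i hi => ?_)
  · rw [MonoidHom.comp_apply, rho_ga hi, th_ga _ hi]
    split_ifs with e
    · simp
    · rw [th_ga _ hi, if_neg e]
  · rw [MonoidHom.comp_apply, rho_gb hi]

theorem th_emb (hm : h < m) (w w' : FG h) : th m h w (emb m h w') = emb m h w' := by
  have : (th m h w).comp (emb m h) = emb m h := by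
    refine fg_hom_ext (fun i hi => ?_) (fun i hi => ?_)
    · rw [MonoidHom.comp_apply, emb_ga hi, th_ga _ (by omega), if_neg (by omega)]
    · rw [MonoidHom.comp_apply, emb_gb hi, th_gb _ (by omega), if_neg (by omega)]
  exact DFunLike.congr_fun this w'

theorem th_mul (hm : h < m) (w w' : FG h) : (th m h w).comp (th m h w') = th m h (w * w') := by
  refine fg_hom_ext (fun i hi => ?_) (fun i hi => ?_)
  · rw [MonoidHom.comp_apply, th_ga _ hi, th_ga _ hi]
    split_ifs with e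
    · simp
    · rw [th_ga _ hi, if_neg e]
  · rw [MonoidHom.comp_apply, th_gb _ hi, th_gb _ hi]
    split_ifs with e
    · rw [map_mul, th_gb _ hm, if_pos rfl, th_emb hm, map_mul, mul_assoc]
    · rw [th_gb _ hi, if_neg e]

theorem rho_pushA (hm : h < m) {i : ℕ} (hi : i < h) :
    (rho m h).comp (pushA m h i).toMonoidHom = th m h (ga h i) := by
  have hh : i < h ∧ h < m := ⟨hi, hm⟩
  have him : i < m := by omega
  have e1 : ¬ (i = h) := by omega
  refine fg_hom_ext (fun l hl => ?_) (fun l hl => ?_)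
  · change rho m h (pushA m h i (ga m l)) = _
    rw [pushA_ga hh hl, th_ga _ hl, pAA]
    split_ifs <;> simp_all [rho_ga hm, rho_ga him, rho_ga hl, mul_assoc]
  · change rho m h (pushA m h i (gb m l)) = _
    rw [pushA_gb hh hl, th_gb _ hl, pAB, emb_ga hi]
    split_ifs <;> simp_all [rho_ga hm, rho_ga him, rho_gb hm, rho_gb him, rho_gb hl, mul_assoc]

theorem rho_pushA_inv (hm : h < m) {i : ℕ} (hi : i < h) :
    (rho m h).comp ((pushA m h i)⁻¹).toMonoidHom = th m h (ga h i)⁻¹ := by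
  have hh : i < h ∧ h < m := ⟨hi, hm⟩
  have him : i < m := by omega
  have e1 : ¬ (i = h) := by omega
  refine fg_hom_ext (fun l hl => ?_) (fun l hl => ?_)
  · change rho m h ((pushA m h i)⁻¹ (ga m l)) = _
    rw [pushA_inv_ga hh hl, th_ga _ hl, pAA']
    split_ifs <;> simp_all [rho_ga hm, rho_ga him, rho_ga hl, mul_assoc]
  · change rho m h ((pushA m h i)⁻¹ (gb m l)) = _
    rw [pushA_inv_gb hh hl, th_gb _ hl, pAB', map_inv, emb_ga hi]
    split_ifs <;> simp_all [rho_ga hm, rho_ga him, rho_gb hm, rho_gb him, rho_gb hl, mul_assoc]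

theorem rho_pushB (hm : h < m) {i : ℕ} (hi : i < h) :
    (rho m h).comp (pushB m h i).toMonoidHom = th m h (gb h i) := by
  have hh : i < h ∧ h < m := ⟨hi, hm⟩
  have him : i < m := by omega
  have e1 : ¬ (i = h) := by omega
  refine fg_hom_ext (fun l hl => ?_) (fun l hl => ?_)
  · change rho m h (pushB m h i (ga m l)) = _
    rw [pushB_ga hh hl, th_ga _ hl, pBA]
    split_ifs <;> simp_all [rho_ga hm, rho_ga him, rho_gb him, rho_ga hl, mul_assoc]
  · change rho m h (pushB m h i (gb m l)) = _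
    rw [pushB_gb hh hl, th_gb _ hl, pBB, emb_gb hi]
    split_ifs <;> simp_all [rho_ga hm, rho_ga him, rho_gb hm, rho_gb him, rho_gb hl, mul_assoc]

theorem rho_pushB_inv (hm : h < m) {i : ℕ} (hi : i < h) :
    (rho m h).comp ((pushB m h i)⁻¹).toMonoidHom = th m h (gb h i)⁻¹ := by
  have hh : i < h ∧ h < m := ⟨hi, hm⟩
  have him : i < m := by omega
  have e1 : ¬ (i = h) := by omega
  refine fg_hom_ext (fun l hl => ?_) (fun l hl => ?_)
  · change rho m h ((pushB m h i)⁻¹ (ga m l)) = _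
    rw [pushB_inv_ga hh hl, th_ga _ hl, pBA']
    split_ifs <;> simp_all [rho_ga hm, rho_ga him, rho_gb him, rho_ga hl, mul_assoc]
  · change rho m h ((pushB m h i)⁻¹ (gb m l)) = _
    rw [pushB_inv_gb hh hl, th_gb _ hl, pBB', map_inv, emb_gb hi]
    split_ifs <;> simp_all [rho_ga hm, rho_ga him, rho_gb hm, rho_gb him, rho_gb hl, mul_assoc]

theorem rho_phi (hm : h < m) (w : FG h) : (rho m h).comp (phi m h w).toMonoidHom = th m h w := by
  induction w using FreeGroup.induction_on with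
  | C1 =>
    refine fg_hom_ext (fun l hl => ?_) (fun l hl => ?_)
    · change rho m h (phi m h 1 (ga m l)) = _
      rw [map_one, MulAut.one_apply, rho_ga hl, th_ga _ hl]
    · change rho m h (phi m h 1 (gb m l)) = _
      rw [map_one, MulAut.one_apply, rho_gb hl, th_gb _ hl, map_one, mul_one]
      split_ifs with e
      · rw [e]
      · rfl
  | of x =>
    obtain ⟨⟨i, hi⟩, s⟩ := x
    cases s
    · have e1 : phi m h (FreeGroup.of (⟨i, hi⟩, false)) = pushB m h i := by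
        rw [← gb_of_lt hi]; exact mkHom_gb _ _ hi
      rw [e1, rho_pushB hm hi, gb_of_lt hi]
    · have e1 : phi m h (FreeGroup.of (⟨i, hi⟩, true)) = pushA m h i := by
        rw [← ga_of_lt hi]; exact mkHom_ga _ _ hi
      rw [e1, rho_pushA hm hi, ga_of_lt hi]
  | inv_of x _ =>
    obtain ⟨⟨i, hi⟩, s⟩ := x
    cases s
    · have e1 : phi m h (FreeGroup.of (⟨i, hi⟩, false))⁻¹ = (pushB m h i)⁻¹ := by
        rw [← gb_of_lt hi, map_inv]; congr 1; exact mkHom_gb _ _ hi
      rw [e1, rho_pushB_inv hm hi, gb_of_lt hi]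
    · have e1 : phi m h (FreeGroup.of (⟨i, hi⟩, true))⁻¹ = (pushA m h i)⁻¹ := by
        rw [← ga_of_lt hi, map_inv]; congr 1; exact mkHom_ga _ _ hi
      rw [e1, rho_pushA_inv hm hi, ga_of_lt hi]
  | mul w w' h1 h2 =>
    have h1' : ∀ x, rho m h (phi m h w x) = th m h w x := fun x => DFunLike.congr_fun h1 x
    have h2' : ∀ x, rho m h (phi m h w' x) = th m h w' x := fun x => DFunLike.congr_fun h2 x
    ext1 x
    change rho m h (phi m h (w * w') _) = _
    rw [map_mul, MulAut.mul_apply, h1', ← th_rho w, MonoidHom.comp_apply, h2', ← th_mul hm,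
      MonoidHom.comp_apply]

theorem rho_phi_apply (hm : h < m) (w : FG h) (x : FG m) : rho m h (phi m h w x) = th m h w x :=
  DFunLike.congr_fun (rho_phi hm w) x

/-- modulo a normal subgroup containing `a_h`, `rho` is the identity -/
theorem mem_iff_rho {N : Subgroup (FG m)} [N.Normal] (ha : ga m h ∈ N) (x : FG m) :
    rho m h x ∈ N ↔ x ∈ N := by
  have : (QuotientGroup.mk' N).comp (rho m h) = QuotientGroup.mk' N := by
    refine fg_hom_ext (fun l hl => ?_) (fun l hl => ?_)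
    · rw [MonoidHom.comp_apply, rho_ga hl]
      split_ifs with e
      · subst e
        rw [map_one]
        exact ((QuotientGroup.eq_one_iff _).2 ha).symm
      · rfl
    · rw [MonoidHom.comp_apply, rho_gb hl]
  rw [← QuotientGroup.eq_one_iff, ← QuotientGroup.eq_one_iff]
  have h2 := DFunLike.congr_fun this x
  change ((rho m h x : FG m) : FG m ⧸ N) = (x : FG m ⧸ N) at h2
  rw [h2]

/-- `K_upper` from its ingredients -/
theorem K_upper_of {m : ℕ} (C : Set (FG m × MulAut (FG m))) (S : Set (FG m)) (K : Subgroup (FG m))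
    (hK : ∀ p ∈ C, ∀ x, p.2 x ∈ K ↔ x ∈ K) (hc : ∀ p ∈ C, p.1 ∈ K)
    (hS : ∀ s ∈ S, ∀ p ∈ C, ∃ e e' : ℤ, p.2 s = p.1 ^ e * s * p.1 ^ e')
    (hstar : ∀ K' : Subgroup (FG m), (∀ p ∈ C, ∀ x, p.2 x ∈ K' ↔ x ∈ K') → (∀ p ∈ C, p.1 ∈ K') →
      ∀ s ∈ S, ∀ p ∈ C, s * p.1 * s⁻¹ ∈ K' ∧ s⁻¹ * p.1 * s ∈ K')
    (hgen : Subgroup.closure ({c | ∃ p ∈ C, c = p.1} ∪ S) = ⊤) :
    Subgroup.normalClosure {c | ∃ p ∈ C, c = p.1} ≤ K :=
  K_abstract C S K hK hc hS hstar hgen

/-- `x_i ↦ b_i` -/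
def xin' (n m : ℕ) : FreeGroup (Fin n) →* FG m := FreeGroup.lift fun i => gb m i

/-- the twist `e_r = φ(r) τ_b φ(r)⁻¹` where `φ` pushes the handle `m'` -/
def eT' (g m' : ℕ) (r : FG m') : MulAut (FG g) := phi g m' r * tauB g m' * (phi g m' r)⁻¹

/-- `K_full` from `K_upper` and `CT_gen` -/
theorem K_full_of {m h n : ℕ} (hm : h < m) (hn' : n ≤ h) (D : Set (FG m)) (K : Subgroup (FG m))
    (hN : Subgroup.normalClosure D ≤ K) (ha : ga m h ∈ D) (hb : gb m h ∈ D)
    (hgen : Subgroup.closure (D ∪ {s | ∃ j, j < n ∧ s = gb m j}) = ⊤)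
    (X : Set (FreeGroup (Fin n)))
    (hX : ∀ r ∈ X, ∀ x, eT' m h (xin' n h r) x ∈ K ↔ x ∈ K)
    (hn : Subgroup.normalClosure X = ⊤) : K = ⊤ := by
  -- the normal core of `K`
  set N : Subgroup (FG m) := K.normalCore with hNdef
  have hNK : N ≤ K := K.normalCore_le
  have hDN : ∀ d ∈ D, d ∈ N := by
    have : Subgroup.normalClosure D ≤ N := Subgroup.normal_le_normalCore.2 hN
    exact fun d hd => this (Subgroup.subset_normalClosure hd)
  -- the relators
  have hr : ∀ r ∈ X, emb m h (xin' n h r) ∈ N := by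
    intro r hr
    set w := xin' n h r with hw
    set T : MulAut (FG m) := eT' m h w with hT
    -- `T(N)` is a normal subgroup of `K`
    have hTN : ∀ x ∈ N, T x ∈ N := by
      have hle : N.map T.toMonoidHom ≤ K := by
        rintro _ ⟨x, hx, rfl⟩
        exact (hX r hr x).2 (hNK hx)
      have hnorm : (N.map T.toMonoidHom).Normal :=
        Subgroup.Normal.map inferInstance _ T.surjective
      have := Subgroup.normal_le_normalCore.2 hle
      intro x hx
      exact this ⟨x, hx, rfl⟩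
    -- `Φ(a_h) ∈ N`
    have h1 : phi m h w (ga m h) ∈ N := by
      rw [← mem_iff_rho (h := h) (hDN _ ha), rho_phi_apply hm, th_ga _ hm, if_pos rfl]
      exact N.one_mem
    -- `T (Φ(a_h)) = Φ(a_h) Φ(b_h)`
    have h2 : T (phi m h w (ga m h)) = phi m h w (ga m h) * phi m h w (gb m h) := by
      rw [hT, eT', MulAut.mul_apply, MulAut.mul_apply, MulAut.inv_apply_self]
      rw [tauB, tw_ga hm]
      simp [bB]
    have h3 : phi m h w (gb m h) ∈ N := by
      have := hTN _ h1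
      rw [h2] at this
      exact (N.mul_mem_cancel_left h1).1 this
    rw [← mem_iff_rho (h := h) (hDN _ ha), rho_phi_apply hm, th_gb _ hm, if_pos rfl] at h3
    exact (N.mul_mem_cancel_left (hDN _ hb)).1 h3
  -- hence all `b_j`, `j < n`
  have hall : ∀ r : FreeGroup (Fin n), emb m h (xin' n h r) ∈ N := by
    have : Subgroup.normalClosure X ≤ N.comap ((emb m h).comp (xin' n h)) := by
      refine Subgroup.normalClosure_le_normal ?_
      intro r hrX
      exact hr r hrX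
    intro r
    have h4 : r ∈ Subgroup.normalClosure X := by rw [hn]; trivial
    exact this h4
  have hbj : ∀ j, j < n → gb m j ∈ N := by
    intro j hj
    have := hall (FreeGroup.of ⟨j, hj⟩)
    rw [xin', FreeGroup.lift_apply_of, emb_gb (by omega)] at this
    exact this
  rw [eq_top_iff, ← hgen, Subgroup.closure_le]
  rintro x (hx | ⟨j, hj, rfl⟩)
  · exact hNK (hDN x hx)
  · exact hNK (hbj j hj)

end Pool.Agent.helper11.Hz
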