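import Mathlib
import Pool.Agent.helper11.Hz.K

/-! # MODULE K of MP_1b0330_gt, second part: `K_upper`, `K_full` from the facts about the curves `CT`
(`C` is the set `CT k m`; the facts are the theorems `CT_star`, `CT_S`, `CT_gen`, `CT_base`) -/

namespace Pool.Agent.helper11.Hz

open Pool.Agent.helper35.Hz

theorem K_upper_C {k m : ℕ} (C : Set (FG m × MulAut (FG m)))
    (CT_star : ∀ K' : Subgroup (FG m), (∀ p ∈ C, ∀ x, p.2 x ∈ K' ↔ x ∈ K') → (∀ p ∈ C, p.1 ∈ K') →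
      ∀ j, j + 2 < k → ∀ p ∈ C, gb m j * p.1 * (gb m j)⁻¹ ∈ K' ∧ (gb m j)⁻¹ * p.1 * gb m j ∈ K')
    (CT_S : ∀ j, j + 2 < k → ∀ p ∈ C, ∃ e e' : ℤ, p.2 (gb m j) = p.1 ^ e * gb m j * p.1 ^ e')
    (CT_gen : Subgroup.closure ({c | ∃ p ∈ C, c = p.1} ∪ {s | ∃ j, j + 2 < k ∧ s = gb m j}) = ⊤)
    (K : Subgroup (FG m)) (hK : ∀ p ∈ C, ∀ x, p.2 x ∈ K ↔ x ∈ K) (hc : ∀ p ∈ C, p.1 ∈ K) :
    Subgroup.normalClosure {c | ∃ p ∈ C, c = p.1} ≤ K := by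
  refine K_upper_of C {s | ∃ j, j + 2 < k ∧ s = gb m j} K hK hc ?_ ?_ CT_gen
  · rintro s ⟨j, hj, rfl⟩ p hp
    exact CT_S j hj p hp
  · rintro K' h1 h2 s ⟨j, hj, rfl⟩ p hp
    exact CT_star K' h1 h2 j hj p hp

theorem K_full_C {k m : ℕ} (hk : 2 ≤ k) (hm : m = 2 * k - 1) (C : Set (FG m × MulAut (FG m)))
    (ha : (ga m (2 * k - 2), tauA m (2 * k - 2)) ∈ C) (hb : (gb m (2 * k - 2), tauB m (2 * k - 2)) ∈ C)
    (CT_gen : Subgroup.closure ({c | ∃ p ∈ C, c = p.1} ∪ {s | ∃ j, j + 2 < k ∧ s = gb m j}) = ⊤)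
    (K : Subgroup (FG m)) (hN : Subgroup.normalClosure {c | ∃ p ∈ C, c = p.1} ≤ K)
    (X : Set (FreeGroup (Fin (k - 2))))
    (hX : ∀ r ∈ X, ∀ x, eT' m (2 * k - 2) (xin' (k - 2) (2 * k - 2) r) x ∈ K ↔ x ∈ K)
    (hn : Subgroup.normalClosure X = ⊤) : K = ⊤ := by
  refine K_full_of (n := k - 2) (h := 2 * k - 2) (by omega) (by omega) {c | ∃ p ∈ C, c = p.1} K hN
    ⟨_, ha, rfl⟩ ⟨_, hb, rfl⟩ ?_ X hX hn
  rw [eq_top_iff, ← CT_gen]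
  refine Subgroup.closure_mono (Set.union_subset_union_right _ ?_)
  rintro s ⟨j, hj, rfl⟩
  exact ⟨j, by omega, rfl⟩

end Pool.Agent.helper11.Hz
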