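import Pool.Agent.helper11.Hz.K2
import Pool.Agent.helper35.Hz.Kdefs
import Pool.Agent.helper59.Hz.CTgen

set_option autoImplicit false

/-! # Module K with the constants of `Kdefs` (only `CT_star` and `CT_base` are hypotheses) -/

namespace Pool.Agent.helper11.Hz

open Pool.Agent.helper35.Hz

theorem K_upper' {k m : ℕ} (hk : 2 ≤ k) (hm : m = 2 * k - 1)
    (CT_star : ∀ K' : Subgroup (FG m), (∀ p ∈ CT k m, ∀ x, p.2 x ∈ K' ↔ x ∈ K') →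
      (∀ p ∈ CT k m, p.1 ∈ K') → ∀ j, j + 2 < k →
      ∀ p ∈ CT k m, gb m j * p.1 * (gb m j)⁻¹ ∈ K' ∧ (gb m j)⁻¹ * p.1 * gb m j ∈ K')
    (CT_base : ∀ K : Subgroup (FG m), (∀ p ∈ CT k m, ∀ x, p.2 x ∈ K ↔ x ∈ K) →
      gb m (2 * k - 2) * ga m (2 * k - 2) * (gb m (2 * k - 2))⁻¹ ∈ K → ∀ p ∈ CT k m, p.1 ∈ K)
    (K : Subgroup (FG m)) (hK : ∀ p ∈ CT k m, ∀ x, p.2 x ∈ K ↔ x ∈ K)
    (hbase : gb m (2 * k - 2) * ga m (2 * k - 2) * (gb m (2 * k - 2))⁻¹ ∈ K) :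
    Subgroup.normalClosure {c | ∃ p ∈ CT k m, c = p.1} ≤ K :=
  K_upper_C (CT k m) CT_star (fun _ hj => Pool.Agent.helper59.Hz.CT_S hk hm hj)
    (Pool.Agent.helper59.Hz.CT_gen hk hm) K hK (CT_base K hK hbase)

theorem K_full' {k m : ℕ} (hk : 2 ≤ k) (hm : m = 2 * k - 1)
    (CT_star : ∀ K' : Subgroup (FG m), (∀ p ∈ CT k m, ∀ x, p.2 x ∈ K' ↔ x ∈ K') →
      (∀ p ∈ CT k m, p.1 ∈ K') → ∀ j, j + 2 < k →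
      ∀ p ∈ CT k m, gb m j * p.1 * (gb m j)⁻¹ ∈ K' ∧ (gb m j)⁻¹ * p.1 * gb m j ∈ K')
    (CT_base : ∀ K : Subgroup (FG m), (∀ p ∈ CT k m, ∀ x, p.2 x ∈ K ↔ x ∈ K) →
      gb m (2 * k - 2) * ga m (2 * k - 2) * (gb m (2 * k - 2))⁻¹ ∈ K → ∀ p ∈ CT k m, p.1 ∈ K)
    (K : Subgroup (FG m)) (hK : ∀ p ∈ CT k m, ∀ x, p.2 x ∈ K ↔ x ∈ K)
    (hbase : gb m (2 * k - 2) * ga m (2 * k - 2) * (gb m (2 * k - 2))⁻¹ ∈ K)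
    (X : Set (FreeGroup (Fin (k - 2))))
    (hX : ∀ r ∈ X, ∀ x, eT m (2 * k - 2) (xin (k - 2) (2 * k - 2) r) x ∈ K ↔ x ∈ K)
    (hn : Subgroup.normalClosure X = ⊤) : K = ⊤ :=
  K_full_C hk hm (CT k m)
    (Or.inl (Or.inl (Or.inl (Or.inl ⟨2 * k - 2, by omega, rfl⟩))))
    (Or.inl (Or.inl (Or.inl (Or.inr ⟨2 * k - 2, Or.inr (Or.inr rfl), rfl⟩))))
    (Pool.Agent.helper59.Hz.CT_gen hk hm) K (K_upper' hk hm CT_star CT_base K hK hbase) X hX hn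

end Pool.Agent.helper11.Hz
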