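import Pool.Agent.helper11.Hz.K3
import Pool.Agent.helper28.Hz.CTstar

set_option autoImplicit false

/-! # Module K, final statements -/

namespace Pool.Agent.helper11.Hz

open Pool.Agent.helper35.Hz

theorem K_upper {k m : ℕ} (hk : 2 ≤ k) (hm : m = 2 * k - 1) (K : Subgroup (FG m))
    (hK : ∀ p ∈ CT k m, ∀ x, p.2 x ∈ K ↔ x ∈ K)
    (hbase : gb m (2 * k - 2) * ga m (2 * k - 2) * (gb m (2 * k - 2))⁻¹ ∈ K) :
    Subgroup.normalClosure {c | ∃ p ∈ CT k m, c = p.1} ≤ K :=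
  K_upper' hk hm (fun K' h1 h2 _ hj => Pool.Agent.helper28.Hz.CT_star hk hm K' h1 h2 hj)
    (fun K hK hb => Pool.Agent.helper28.Hz.CT_base hk hm K hK hb) K hK hbase

theorem K_full {k m : ℕ} (hk : 2 ≤ k) (hm : m = 2 * k - 1) (K : Subgroup (FG m))
    (hK : ∀ p ∈ CT k m, ∀ x, p.2 x ∈ K ↔ x ∈ K)
    (hbase : gb m (2 * k - 2) * ga m (2 * k - 2) * (gb m (2 * k - 2))⁻¹ ∈ K)
    (X : Set (FreeGroup (Fin (k - 2))))
    (hX : ∀ r ∈ X, ∀ x, eT m (2 * k - 2) (xin (k - 2) (2 * k - 2) r) x ∈ K ↔ x ∈ K)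
    (hn : Subgroup.normalClosure X = ⊤) : K = ⊤ :=
  K_full' hk hm (fun K' h1 h2 _ hj => Pool.Agent.helper28.Hz.CT_star hk hm K' h1 h2 hj)
    (fun K hK hb => Pool.Agent.helper28.Hz.CT_base hk hm K hK hb) K hK hbase X hX hn

end Pool.Agent.helper11.Hz
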